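import Mathlib

/-!
# 3-torsion in the free alternative ring

For elements `y, x₀, …, x₄` of an alternative ring put
`τ = ∑_{i ∈ ℤ/5} (y ∘ xᵢ, xᵢ₊₁ ∘ xᵢ₋₁, xᵢ₊₂ ∘ xᵢ₋₂)`, where `a ∘ b = ab + ba` and `(a,b,c)` is the
associator. We show `3 τ = 0` in every alternative ring, and that `τ ≠ 0` in the free alternative
ring, by mapping it to a commutative alternative algebra of characteristic 3.

* `3 τ = 0`: all consequences of `(a ∘ b, c, d) = a ∘ (b, c, d) + b ∘ (a, c, d)`, expanding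
  `(a ∘ b, c ∘ d, w)` in two ways; `3 τ` is a sum of 25 such relations.
* `τ ≠ 0`: the algebra `Tw K` has basis vectors `v_S` (`S` a subset of a 6-element set, encoded as
  a bitmask), with `v_S v_T = c(S,T) v_{S ∪ T}`; it is commutative and satisfies
  `(fg)h + (gh)f + (hf)g = 0`, hence is alternative when `3 = 0` in `K`.
-/

universe u

namespace Pool.Agent.Results.MP_2692c1_al.Torsion

section AltRing
variable {R : Type*} [NonUnitalNonAssocRing R]

/-- Jordan product. -/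
def J (a b : R) : R := a * b + b * a

structure IsAlt (R : Type*) [NonUnitalNonAssocRing R] : Prop where
  left : ∀ a b : R, (a * a) * b = a * (a * b)
  right : ∀ a b : R, (b * a) * a = b * (a * a)

theorem skew12 (h : IsAlt R) (a b c : R) : associator a b c = - associator b a c := by
  have h1 := h.left (a + b) c
  have h2 := h.left a c
  have h3 := h.left b c
  simp only [associator]
  simp only [mul_add, add_mul] at h1
  rw [h2, h3] at h1
  rw [eq_neg_iff_add_eq_zero]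
  have h4 := sub_eq_zero.mpr h1
  rw [← h4]; abel

theorem skew23 (h : IsAlt R) (a b c : R) : associator a b c = - associator a c b := by
  have h1 := h.right (b + c) a
  have h2 := h.right b a
  have h3 := h.right c a
  simp only [associator]
  simp only [mul_add, add_mul] at h1
  rw [h2, h3] at h1
  rw [eq_neg_iff_add_eq_zero]
  have h4 := sub_eq_zero.mpr h1
  rw [← h4]; abel

theorem cyc (h : IsAlt R) (a b c : R) : associator a b c = associator b c a := by
  rw [skew12 h a b c, skew23 h b a c, neg_neg]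

def F (a b c d : R) : R := associator (a * b) c d - b * associator a c d - associator b c d * a

theorem F_cyc (h : IsAlt R) (a b c d : R) : F a b c d = - F d a b c := by
  have t1 := associator_cocycle a b c d
  have t2 := associator_cocycle b c d a
  have e1 : associator a (b * c) d = - associator (b * c) a d := skew12 h _ _ _
  have e2 : associator (b * c) d a = - associator (b * c) a d := skew23 h _ _ _
  have e3 : associator a b (c * d) = associator (c * d) a b := by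
    rw [cyc h a b (c * d), cyc h b (c * d) a]
  have e4 : associator b (c * d) a = - associator (c * d) b a := skew12 h _ _ _
  have e5 : associator (c * d) a b = - associator (c * d) b a := skew23 h _ _ _
  have e6 : associator b c (d * a) = associator (d * a) b c := by
    rw [cyc h b c (d * a), cyc h c (d * a) b]
  have e7 : associator c d a = associator a c d := by rw [cyc h c d a, cyc h d a c]
  have e8 : associator d b c = associator b c d := by rw [cyc h d b c]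
  simp only [F]
  rw [e8]
  rw [e1, e3, e5] at t1
  rw [e2, e4, e6, e7] at t2
  linear_combination (norm := abel1) (-1 : ℤ) • t1 - t2

theorem F_skew (h : IsAlt R) (a b c d : R) : F a b c d = - F b a c d := by
  have e1 : F a b c d = F c d a b := by rw [F_cyc h a b c d, F_cyc h d a b c, neg_neg]
  have e2 : F c d b a = F b a c d := by rw [F_cyc h c d b a, F_cyc h a c d b, neg_neg]
  have e3 : F c d a b = - F c d b a := by
    simp only [F]
    rw [skew23 h (c * d) a b, skew23 h c a b, skew23 h d a b]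
    simp only [mul_neg, neg_mul]
    abel
  rw [e1, e3, e2]

/-- `(a ∘ b, c, d) = a ∘ (b, c, d) + b ∘ (a, c, d)`. -/
theorem assoc_J (h : IsAlt R) (a b c d : R) :
    associator (J a b) c d = J a (associator b c d) + J b (associator a c d) := by
  have e := F_skew h a b c d
  simp only [F] at e
  simp only [J]
  have e2 : associator (a * b + b * a) c d = associator (a * b) c d + associator (b * a) c d := by
    simp only [associator, add_mul]; abel
  rw [e2]
  rw [eq_neg_iff_add_eq_zero] at e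
  rw [← sub_eq_zero, ← e]
  abel

theorem J_comm (a b : R) : J a b = J b a := by simp only [J]; abel
theorem J_add (a b c : R) : J a (b + c) = J a b + J a c := by simp only [J, mul_add, add_mul]; abel
theorem J_neg (a b : R) : J a (-b) = - J a b := by simp only [J, mul_neg, neg_mul]; abel
theorem J_sub (a b c : R) : J a (b - c) = J a b - J a c := by
  simp only [J, mul_sub, sub_mul]; abel
theorem J_zero (a : R) : J a 0 = 0 := by simp [J]

/-- `a ∘ (b ∘ (c ∘ (d, e, f)))`. -/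
def u (a b c d e f : R) : R := J a (J b (J c (associator d e f)))

theorem v213 (h : IsAlt R) (a b c p q r : R) : u a b c p q r = - u a b c q p r := by
  simp only [u]; rw [skew12 h p q r]; simp only [J_neg]
theorem v132 (h : IsAlt R) (a b c p q r : R) : u a b c p q r = - u a b c p r q := by
  simp only [u]; rw [skew23 h p q r]; simp only [J_neg]
theorem v231 (h : IsAlt R) (a b c p q r : R) : u a b c p q r = u a b c q r p := by
  simp only [u]; rw [cyc h p q r]
theorem v312 (h : IsAlt R) (a b c p q r : R) : u a b c p q r = u a b c r p q := by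
  simp only [u]; rw [cyc h p q r, cyc h q r p]
theorem v321 (h : IsAlt R) (a b c p q r : R) : u a b c p q r = - u a b c r q p := by
  simp only [u]; rw [skew12 h p q r, cyc h q p r, cyc h p r q]; simp only [J_neg]

theorem assoc_J2 (h : IsAlt R) (a c d w : R) :
    associator a (J c d) w = J c (associator a d w) + J d (associator a c w) := by
  rw [skew12 h, assoc_J h, skew12 h d a w, skew12 h c a w]
  simp only [J_neg]; abel

theorem assoc_J3 (h : IsAlt R) (a b c d : R) :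
    associator a b (J c d) = J c (associator a b d) + J d (associator a b c) := by
  rw [cyc h, cyc h, assoc_J h, cyc h d a b, cyc h c a b]

/-- The basic relation between the operators `w ↦ a ∘ w`. -/
theorem relP (h : IsAlt R) (a b c d w : R) :
    J a (J c (associator b d w)) - J c (J a (associator b d w)) +
    (J a (J d (associator b c w)) - J d (J a (associator b c w))) +
    (J b (J c (associator a d w)) - J c (J b (associator a d w))) +
    (J b (J d (associator a c w)) - J d (J b (associator a c w))) = 0 := by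
  have h1 : associator (J a b) (J c d) w =
      J a (J c (associator b d w)) + J a (J d (associator b c w)) +
      (J b (J c (associator a d w)) + J b (J d (associator a c w))) := by
    rw [assoc_J h, assoc_J2 h, assoc_J2 h]; simp only [J_add]
  have h2 : associator (J a b) (J c d) w =
      J c (J a (associator b d w)) + J c (J b (associator a d w)) +
      (J d (J a (associator b c w)) + J d (J b (associator a c w))) := by
    rw [assoc_J2 h, assoc_J h, assoc_J h]; simp only [J_add]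
  linear_combination (norm := abel1) h2 - h1

theorem relL (h : IsAlt R) (f a b c d e : R) :
    (u f a c b d e - u f c a b d e) + (u f a d b c e - u f d a b c e) +
    (u f b c a d e - u f c b a d e) + (u f b d a c e - u f d b a c e) = 0 := by
  have := congrArg (J f) (relP h a b c d e)
  simpa only [J_add, J_sub, J_zero, u] using this

theorem relR (h : IsAlt R) (a b c d e f : R) :
    (u a c e b d f - u c a e b d f) + (u a d e b c f - u d a e b c f) +
    (u b c e a d f - u c b e a d f) + (u b d e a c f - u d b e a c f) +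
    ((u a c f b d e - u c a f b d e) + (u a d f b c e - u d a f b c e) +
    (u b c f a d e - u c b f a d e) + (u b d f a c e - u d b f a c e)) = 0 := by
  have := relP h a b c d (J e f)
  simp only [assoc_J3 h, J_add] at this
  simp only [u]
  rw [← this]; abel

theorem as_JJJ (h : IsAlt R) (a b c d e f : R) :
    associator (J a b) (J c d) (J e f) =
      u a c e b d f + u a c f b d e + u a d e b c f + u a d f b c e +
      (u b c e a d f + u b c f a d e + u b d e a c f + u b d f a c e) := by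
  rw [assoc_J h, assoc_J2 h, assoc_J2 h]
  simp only [assoc_J3 h, J_add, u]
  abel

/-- The element `∑_{i ∈ ℤ/5} (y ∘ xᵢ, xᵢ₊₁ ∘ xᵢ₋₁, xᵢ₊₂ ∘ xᵢ₋₂)`, where `a ∘ b = ab + ba`. -/
def tau (x0 x1 x2 x3 x4 y : R) : R :=
  associator (J y x0) (J x1 x4) (J x2 x3) + associator (J y x1) (J x2 x0) (J x3 x4) +
  associator (J y x2) (J x3 x1) (J x4 x0) + associator (J y x3) (J x4 x2) (J x0 x1) +
  associator (J y x4) (J x0 x3) (J x1 x2)

theorem three_tau (h : IsAlt R) (x0 x1 x2 x3 x4 y : R) : (3 : ℤ) • tau x0 x1 x2 x3 x4 y = 0 := by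
  unfold tau
  linear_combination (norm := abel1)
    (3:ℤ) • as_JJJ h y x0 x1 x4 x2 x3 +
    (3:ℤ) • as_JJJ h y x1 x2 x0 x3 x4 +
    (3:ℤ) • as_JJJ h y x2 x3 x1 x4 x0 +
    (3:ℤ) • as_JJJ h y x3 x4 x2 x0 x1 +
    (3:ℤ) • as_JJJ h y x4 x0 x3 x1 x2 +
    (1:ℤ) • relL h x0 x1 x3 x4 y x2 +
    (1:ℤ) • relL h x1 x2 x4 x0 y x3 +
    (1:ℤ) • relL h x2 x3 x0 x1 y x4 +
    (1:ℤ) • relL h x3 x4 x1 x2 y x0 +
    (1:ℤ) • relL h x4 x0 x2 x3 y x1 +
    (1:ℤ) • relL h x0 x1 y x2 x4 x3 +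
    (1:ℤ) • relL h x1 x2 y x3 x0 x4 +
    (1:ℤ) • relL h x2 x3 y x4 x1 x0 +
    (1:ℤ) • relL h x3 x4 y x0 x2 x1 +
    (1:ℤ) • relL h x4 x0 y x1 x3 x2 +
    (-1:ℤ) • relR h x0 x2 x1 x3 x4 y +
    (-1:ℤ) • relR h x1 x3 x2 x4 x0 y +
    (-1:ℤ) • relR h x2 x4 x3 x0 x1 y +
    (-1:ℤ) • relR h x3 x0 x4 x1 x2 y +
    (-1:ℤ) • relR h x4 x1 x0 x2 x3 y +
    (1:ℤ) • relR h x0 x2 x1 y x3 x4 +
    (1:ℤ) • relR h x1 x3 x2 y x4 x0 +
    (1:ℤ) • relR h x2 x4 x3 y x0 x1 +
    (1:ℤ) • relR h x3 x0 x4 y x1 x2 +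
    (1:ℤ) • relR h x4 x1 x0 y x2 x3 +
    (1:ℤ) • relL h y x0 x1 x2 x4 x3 +
    (1:ℤ) • relL h y x1 x2 x3 x0 x4 +
    (1:ℤ) • relL h y x2 x3 x4 x1 x0 +
    (1:ℤ) • relL h y x3 x4 x0 x2 x1 +
    (1:ℤ) • relL h y x4 x0 x1 x3 x2 +
    (1:ℤ) • v312 h x0 x1 x2 x4 y x3 +
    (2:ℤ) • v321 h x0 x1 x2 y x4 x3 +
    (-1:ℤ) • v132 h x0 x1 x3 x2 y x4 +
    (-1:ℤ) • v213 h x0 x1 x3 x4 x2 y +
    (1:ℤ) • v312 h x0 x1 x3 x4 y x2 +
    (3:ℤ) • v321 h x0 x1 x3 y x4 x2 +
    (-1:ℤ) • v132 h x0 x1 x4 x2 y x3 +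
    (-1:ℤ) • v312 h x0 x1 x4 x3 y x2 +
    (-1:ℤ) • v231 h x0 x1 x4 y x2 x3 +
    (-1:ℤ) • v231 h x0 x1 y x4 x2 x3 +
    (-1:ℤ) • v213 h x0 x2 x1 x4 x3 y +
    (1:ℤ) • v321 h x0 x2 x1 y x4 x3 +
    (1:ℤ) • v132 h x0 x2 y x1 x4 x3 +
    (-1:ℤ) • v321 h x0 x2 y x4 x3 x1 +
    (-1:ℤ) • v132 h x0 x3 x4 x1 y x2 +
    (1:ℤ) • v213 h x0 x3 x4 x2 x1 y +
    (-1:ℤ) • v132 h x0 x3 y x1 x4 x2 +
    (1:ℤ) • v213 h x0 x3 y x2 x1 x4 +
    (1:ℤ) • v231 h x0 x4 x1 y x2 x3 +
    (1:ℤ) • v132 h x0 x4 x2 x1 y x3 +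
    (1:ℤ) • v213 h x0 x4 x2 x3 x1 y +
    (-1:ℤ) • v312 h x0 x4 x2 x3 y x1 +
    (3:ℤ) • v231 h x0 x4 x2 y x1 x3 +
    (2:ℤ) • v132 h x0 x4 x3 x1 y x2 +
    (3:ℤ) • v231 h x0 x4 x3 y x1 x2 +
    (-1:ℤ) • v312 h x0 x4 y x2 x3 x1 +
    (1:ℤ) • v231 h x0 x4 y x3 x1 x2 +
    (-1:ℤ) • v132 h x0 y x2 x1 x4 x3 +
    (-1:ℤ) • v312 h x0 y x2 x3 x4 x1 +
    (1:ℤ) • v132 h x0 y x3 x1 x4 x2 +
    (-1:ℤ) • v213 h x0 y x3 x2 x1 x4 +
    (-1:ℤ) • v213 h x0 y x4 x2 x1 x3 +
    (1:ℤ) • v231 h x1 x0 x2 y x3 x4 +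
    (1:ℤ) • v132 h x1 x0 x3 x2 y x4 +
    (1:ℤ) • v213 h x1 x0 x3 x4 x2 y +
    (-1:ℤ) • v312 h x1 x0 x3 x4 y x2 +
    (3:ℤ) • v231 h x1 x0 x3 y x2 x4 +
    (2:ℤ) • v132 h x1 x0 x4 x2 y x3 +
    (3:ℤ) • v231 h x1 x0 x4 y x2 x3 +
    (-1:ℤ) • v312 h x1 x0 y x3 x4 x2 +
    (1:ℤ) • v231 h x1 x0 y x4 x2 x3 +
    (-1:ℤ) • v132 h x1 x2 x0 x3 y x4 +
    (-1:ℤ) • v312 h x1 x2 x0 x4 y x3 +
    (-1:ℤ) • v231 h x1 x2 x0 y x3 x4 +
    (1:ℤ) • v132 h x1 x2 x3 x0 y x4 +
    (1:ℤ) • v213 h x1 x2 x3 x4 x0 y +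
    (2:ℤ) • v231 h x1 x2 x3 y x0 x4 +
    (1:ℤ) • v132 h x1 x2 x4 x0 y x3 +
    (-1:ℤ) • v312 h x1 x2 x4 x3 y x0 +
    (3:ℤ) • v231 h x1 x2 x4 y x0 x3 +
    (1:ℤ) • v312 h x1 x2 y x3 x4 x0 +
    (1:ℤ) • v231 h x1 x3 x2 y x0 x4 +
    (-1:ℤ) • v132 h x1 x3 y x0 x4 x2 +
    (1:ℤ) • v213 h x1 x3 y x2 x0 x4 +
    (-1:ℤ) • v132 h x1 x4 x0 x2 y x3 +
    (1:ℤ) • v213 h x1 x4 x0 x3 x2 y +
    (-1:ℤ) • v213 h x1 x4 y x2 x0 x3 +
    (1:ℤ) • v321 h x1 x4 y x3 x2 x0 +
    (-1:ℤ) • v213 h x1 y x0 x3 x2 x4 +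
    (-1:ℤ) • v213 h x1 y x3 x2 x0 x4 +
    (-1:ℤ) • v231 h x1 y x3 x4 x0 x2 +
    (1:ℤ) • v213 h x1 y x4 x2 x0 x3 +
    (-1:ℤ) • v321 h x1 y x4 x3 x2 x0 +
    (-1:ℤ) • v132 h x2 x0 x1 x3 y x4 +
    (1:ℤ) • v213 h x2 x0 x1 x4 x3 y +
    (-1:ℤ) • v213 h x2 x0 y x3 x1 x4 +
    (1:ℤ) • v321 h x2 x0 y x4 x3 x1 +
    (2:ℤ) • v132 h x2 x1 x0 x3 y x4 +
    (3:ℤ) • v231 h x2 x1 x0 y x3 x4 +
    (-1:ℤ) • v213 h x2 x1 x3 x4 x0 y +
    (1:ℤ) • v321 h x2 x1 x3 y x4 x0 +
    (-1:ℤ) • v132 h x2 x1 x4 x0 y x3 +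
    (1:ℤ) • v312 h x2 x1 x4 x3 y x0 +
    (3:ℤ) • v321 h x2 x1 x4 y x3 x0 +
    (-1:ℤ) • v231 h x2 x1 y x4 x0 x3 +
    (1:ℤ) • v132 h x2 x3 x0 x1 y x4 +
    (-1:ℤ) • v312 h x2 x3 x0 x4 y x1 +
    (3:ℤ) • v231 h x2 x3 x0 y x1 x4 +
    (-1:ℤ) • v132 h x2 x3 x1 x0 y x4 +
    (1:ℤ) • v213 h x2 x3 x1 x4 x0 y +
    (-1:ℤ) • v312 h x2 x3 x1 x4 y x0 +
    (-1:ℤ) • v321 h x2 x3 x1 y x4 x0 +
    (1:ℤ) • v312 h x2 x3 x4 x1 y x0 +
    (2:ℤ) • v321 h x2 x3 x4 y x1 x0 +
    (-1:ℤ) • v312 h x2 x3 y x1 x4 x0 +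
    (1:ℤ) • v231 h x2 x3 y x4 x0 x1 +
    (-1:ℤ) • v213 h x2 x4 x3 x1 x0 y +
    (1:ℤ) • v321 h x2 x4 x3 y x1 x0 +
    (-1:ℤ) • v213 h x2 x4 y x1 x0 x3 +
    (1:ℤ) • v321 h x2 x4 y x3 x1 x0 +
    (1:ℤ) • v213 h x2 y x0 x3 x1 x4 +
    (-1:ℤ) • v321 h x2 y x0 x4 x3 x1 +
    (-1:ℤ) • v312 h x2 y x1 x3 x4 x0 +
    (-1:ℤ) • v321 h x2 y x1 x4 x3 x0 +
    (-1:ℤ) • v321 h x2 y x4 x3 x1 x0 +
    (-1:ℤ) • v213 h x3 x0 x4 x2 x1 y +
    (1:ℤ) • v321 h x3 x0 x4 y x2 x1 +
    (-1:ℤ) • v213 h x3 x0 y x2 x1 x4 +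
    (1:ℤ) • v321 h x3 x0 y x4 x2 x1 +
    (-1:ℤ) • v312 h x3 x1 x2 x4 y x0 +
    (1:ℤ) • v132 h x3 x1 y x0 x4 x2 +
    (-1:ℤ) • v321 h x3 x1 y x4 x2 x0 +
    (-1:ℤ) • v132 h x3 x2 x0 x1 y x4 +
    (1:ℤ) • v312 h x3 x2 x0 x4 y x1 +
    (3:ℤ) • v321 h x3 x2 x0 y x4 x1 +
    (-1:ℤ) • v213 h x3 x2 x1 x4 x0 y +
    (2:ℤ) • v312 h x3 x2 x1 x4 y x0 +
    (3:ℤ) • v321 h x3 x2 x1 y x4 x0 +
    (1:ℤ) • v231 h x3 x2 x4 y x0 x1 +
    (1:ℤ) • v312 h x3 x2 y x1 x4 x0 +
    (1:ℤ) • v312 h x3 x4 x0 x2 y x1 +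
    (2:ℤ) • v321 h x3 x4 x0 y x2 x1 +
    (-1:ℤ) • v132 h x3 x4 x1 x0 y x2 +
    (-1:ℤ) • v213 h x3 x4 x1 x2 x0 y +
    (1:ℤ) • v312 h x3 x4 x1 x2 y x0 +
    (3:ℤ) • v321 h x3 x4 x1 y x2 x0 +
    (-1:ℤ) • v132 h x3 x4 x2 x0 y x1 +
    (-1:ℤ) • v312 h x3 x4 x2 x1 y x0 +
    (-1:ℤ) • v231 h x3 x4 x2 y x0 x1 +
    (-1:ℤ) • v231 h x3 x4 y x2 x0 x1 +
    (-1:ℤ) • v321 h x3 y x0 x4 x2 x1 +
    (-1:ℤ) • v132 h x3 y x1 x0 x4 x2 +
    (1:ℤ) • v321 h x3 y x1 x4 x2 x0 +
    (-1:ℤ) • v132 h x3 y x2 x0 x4 x1 +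
    (-1:ℤ) • v231 h x3 y x2 x4 x0 x1 +
    (1:ℤ) • v312 h x4 x0 x1 x3 y x2 +
    (2:ℤ) • v321 h x4 x0 x1 y x3 x2 +
    (-1:ℤ) • v132 h x4 x0 x2 x1 y x3 +
    (-1:ℤ) • v213 h x4 x0 x2 x3 x1 y +
    (1:ℤ) • v312 h x4 x0 x2 x3 y x1 +
    (3:ℤ) • v321 h x4 x0 x2 y x3 x1 +
    (-1:ℤ) • v132 h x4 x0 x3 x1 y x2 +
    (-1:ℤ) • v312 h x4 x0 x3 x2 y x1 +
    (-1:ℤ) • v231 h x4 x0 x3 y x1 x2 +
    (-1:ℤ) • v231 h x4 x0 y x3 x1 x2 +
    (-1:ℤ) • v213 h x4 x1 x0 x3 x2 y +
    (1:ℤ) • v321 h x4 x1 x0 y x3 x2 +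
    (1:ℤ) • v132 h x4 x1 y x0 x3 x2 +
    (-1:ℤ) • v321 h x4 x1 y x3 x2 x0 +
    (-1:ℤ) • v132 h x4 x2 x3 x0 y x1 +
    (1:ℤ) • v213 h x4 x2 x3 x1 x0 y +
    (-1:ℤ) • v132 h x4 x2 y x0 x3 x1 +
    (1:ℤ) • v213 h x4 x2 y x1 x0 x3 +
    (1:ℤ) • v231 h x4 x3 x0 y x1 x2 +
    (1:ℤ) • v132 h x4 x3 x1 x0 y x2 +
    (1:ℤ) • v213 h x4 x3 x1 x2 x0 y +
    (-1:ℤ) • v312 h x4 x3 x1 x2 y x0 +
    (3:ℤ) • v231 h x4 x3 x1 y x0 x2 +
    (2:ℤ) • v132 h x4 x3 x2 x0 y x1 +
    (3:ℤ) • v231 h x4 x3 x2 y x0 x1 +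
    (-1:ℤ) • v312 h x4 x3 y x1 x2 x0 +
    (1:ℤ) • v231 h x4 x3 y x2 x0 x1 +
    (-1:ℤ) • v132 h x4 y x1 x0 x3 x2 +
    (-1:ℤ) • v312 h x4 y x1 x2 x3 x0 +
    (1:ℤ) • v132 h x4 y x2 x0 x3 x1 +
    (-1:ℤ) • v213 h x4 y x2 x1 x0 x3 +
    (-1:ℤ) • v213 h x4 y x3 x1 x0 x2 +
    (1:ℤ) • v312 h y x0 x1 x3 x4 x2 +
    (2:ℤ) • v321 h y x0 x1 x4 x3 x2 +
    (-1:ℤ) • v132 h y x0 x2 x1 x4 x3 +
    (1:ℤ) • v312 h y x0 x2 x3 x4 x1 +
    (3:ℤ) • v321 h y x0 x2 x4 x3 x1 +
    (1:ℤ) • v213 h y x0 x3 x2 x1 x4 +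
    (-1:ℤ) • v231 h y x0 x3 x4 x1 x2 +
    (1:ℤ) • v321 h y x0 x3 x4 x2 x1 +
    (1:ℤ) • v213 h y x0 x4 x2 x1 x3 +
    (1:ℤ) • v321 h y x0 x4 x3 x2 x1 +
    (1:ℤ) • v213 h y x1 x0 x3 x2 x4 +
    (1:ℤ) • v321 h y x1 x0 x4 x3 x2 +
    (2:ℤ) • v132 h y x1 x2 x0 x4 x3 +
    (1:ℤ) • v312 h y x1 x2 x3 x4 x0 +
    (1:ℤ) • v231 h y x1 x2 x4 x0 x3 +
    (3:ℤ) • v132 h y x1 x3 x0 x4 x2 +
    (-1:ℤ) • v213 h y x1 x3 x2 x0 x4 +
    (1:ℤ) • v312 h y x1 x3 x2 x4 x0 +
    (1:ℤ) • v231 h y x1 x3 x4 x0 x2 +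
    (1:ℤ) • v132 h y x1 x4 x0 x3 x2 +
    (3:ℤ) • v312 h y x1 x4 x2 x3 x0 +
    (1:ℤ) • v321 h y x1 x4 x3 x2 x0 +
    (1:ℤ) • v132 h y x2 x0 x1 x4 x3 +
    (3:ℤ) • v312 h y x2 x0 x3 x4 x1 +
    (1:ℤ) • v321 h y x2 x0 x4 x3 x1 +
    (1:ℤ) • v132 h y x2 x1 x0 x4 x3 +
    (2:ℤ) • v312 h y x2 x1 x3 x4 x0 +
    (1:ℤ) • v321 h y x2 x1 x4 x3 x0 +
    (2:ℤ) • v213 h y x2 x3 x1 x0 x4 +
    (1:ℤ) • v231 h y x2 x3 x4 x0 x1 +
    (3:ℤ) • v213 h y x2 x4 x1 x0 x3 +
    (1:ℤ) • v231 h y x2 x4 x3 x0 x1 +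
    (-1:ℤ) • v321 h y x2 x4 x3 x1 x0 +
    (3:ℤ) • v213 h y x3 x0 x2 x1 x4 +
    (1:ℤ) • v231 h y x3 x0 x4 x1 x2 +
    (-1:ℤ) • v321 h y x3 x0 x4 x2 x1 +
    (1:ℤ) • v132 h y x3 x1 x0 x4 x2 +
    (1:ℤ) • v213 h y x3 x1 x2 x0 x4 +
    (-1:ℤ) • v312 h y x3 x1 x2 x4 x0 +
    (3:ℤ) • v231 h y x3 x1 x4 x0 x2 +
    (1:ℤ) • v132 h y x3 x2 x0 x4 x1 +
    (1:ℤ) • v213 h y x3 x2 x1 x0 x4 +
    (2:ℤ) • v231 h y x3 x2 x4 x0 x1 +
    (1:ℤ) • v312 h y x3 x4 x1 x2 x0 +
    (2:ℤ) • v321 h y x3 x4 x2 x1 x0 +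
    (1:ℤ) • v312 h y x4 x0 x2 x3 x1 +
    (2:ℤ) • v321 h y x4 x0 x3 x2 x1 +
    (-1:ℤ) • v132 h y x4 x1 x0 x3 x2 +
    (1:ℤ) • v312 h y x4 x1 x2 x3 x0 +
    (3:ℤ) • v321 h y x4 x1 x3 x2 x0 +
    (1:ℤ) • v213 h y x4 x2 x1 x0 x3 +
    (-1:ℤ) • v231 h y x4 x2 x3 x0 x1 +
    (1:ℤ) • v321 h y x4 x2 x3 x1 x0 +
    (1:ℤ) • v213 h y x4 x3 x1 x0 x2 +
    (1:ℤ) • v321 h y x4 x3 x2 x1 x0

end AltRing
section Tw

def NN : ℕ := 0x400000000000000000000000000000020000000000000000000000000000000000000000000000000000000000000000000000000000000000000000000000a00000000000000000000000000000012000000000000000000000000000000142800000000000000000000000000000000000000000000000000000000000500000000000000000000000000000021000000000000000000000000000000280028000000000000000000000000000000000000000000000000000000000401010000000000000000000000000020010100000000000000000000000000000000000000000000000000000000010000000000000000000000000000000200000004000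00000000000000000000200000020000000000000000000000094000000280000000000000000000002000000020000000000000000000000000000000000000000000000000000000000000000000000000000000000000080160000690000000000000000000001000000010000000000000000000000000000000000000000000000000000000000000000000000000000000000000040001600960000000000000000000001000000000202000000000000000000020202020408080400000000000000000202020220101020000000000000000094010114284242280000000000000002000000000000000000000000000000010000000000000004000000000000000100000000000000200000000000000068000000000000002800000000000001000000000000000200000000000000000000000000000000000000000000000000000000000000000000000000000040290000000000006900000000000002000000000000000100000000000000000000000000000000000000000000000000000000000000000000000000000080002900000000009600000000000002000000000000000002020000000000010101010000000004080804000000000101010100000000201010200000000068020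228000000002842422800000000000000000000000000000000000000080000000a0000000a0000000000000010000000120000001200000000000000000000000000000000000000000000000000000201000002010000000000000a0000000104000001040000020400001200000001200000012000000220000014140000428200004282000014280000000000010001000100010000000000050000000200040002000400010004002100000002002000020020000100200028001400810082008100820028002800000000000000000000000000000000080202000a00000a0a00000a000a0a001002020012000012120000120012120000000000000000000000000000000000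

def c (i j : ℕ) : ℕ := if i < 64 ∧ j < 64 then (NN >>> (128 * i + 2 * j)) % 4 else 0

theorem c_disj' : ∀ i < 64, ∀ j < 64, c i j ≠ 0 → i &&& j = 0 := by decide +kernel
theorem c_comm' : ∀ i < 64, ∀ j < 64, c i j = c j i := by decide +kernel
theorem c_cyc' : ∀ i < 64, ∀ j < 64, i &&& j = 0 → ∀ k < 64, (i ||| j) &&& k = 0 →
    (c i j * c (i ||| j) k + c j k * c (j ||| k) i + c k i * c (k ||| i) j) % 3 = 0 := by
  decide +kernel

theorem c_zero_left {i j : ℕ} (h : ¬ i < 64) : c i j = 0 := by simp [c, h]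
theorem c_zero_right {i j : ℕ} (h : ¬ j < 64) : c i j = 0 := by simp [c, h]

theorem c_comm (i j : ℕ) : c i j = c j i := by
  by_cases hi : i < 64
  · by_cases hj : j < 64
    · exact c_comm' i hi j hj
    · rw [c_zero_right hj, c_zero_left hj]
  · rw [c_zero_left hi, c_zero_right hi]

theorem c_disj {i j : ℕ} (h : ¬ i &&& j = 0) : c i j = 0 := by
  by_cases hi : i < 64
  · by_cases hj : j < 64
    · by_contra h2; exact h (c_disj' i hi j hj h2)
    · rw [c_zero_right hj]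
  · rw [c_zero_left hi]

theorem or_land_eq_zero (i j k : ℕ) : (i ||| j) &&& k = 0 ↔ i &&& k = 0 ∧ j &&& k = 0 := by
  rw [Nat.and_or_distrib_right, Nat.or_eq_zero_iff]

theorem c_cyc (i j k : ℕ) :
    (c i j * c (i ||| j) k + c j k * c (j ||| k) i + c k i * c (k ||| i) j) % 3 = 0 := by
  by_cases hi : i < 64
  swap
  · simp [c_zero_left hi, c_zero_right hi]
  by_cases hj : j < 64
  swap
  · simp [c_zero_left hj, c_zero_right hj]
  by_cases hk : k < 64
  swap
  · simp [c_zero_left hk, c_zero_right hk]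
  by_cases hij : i &&& j = 0
  · by_cases hijk : (i ||| j) &&& k = 0
    · exact c_cyc' i hi j hj hij k hk hijk
    · rw [or_land_eq_zero] at hijk
      by_cases hik : i &&& k = 0
      · have hjk : ¬ j &&& k = 0 := fun h => hijk ⟨hik, h⟩
        have h1 : c (i ||| j) k = 0 := c_disj (by rw [or_land_eq_zero]; tauto)
        have h2 : c j k = 0 := c_disj hjk
        have h3 : c (k ||| i) j = 0 := c_disj (by
          rw [or_land_eq_zero, Nat.and_comm k j]; tauto)
        simp [h1, h2, h3]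
      · have h1 : c (i ||| j) k = 0 := c_disj (by rw [or_land_eq_zero]; tauto)
        have h2 : c (j ||| k) i = 0 := c_disj (by
          rw [or_land_eq_zero, Nat.and_comm k i]; tauto)
        have h3 : c k i = 0 := c_disj (by rwa [Nat.and_comm])
        simp [h1, h2, h3]
  · have h1 : c i j = 0 := c_disj hij
    have h2 : c (j ||| k) i = 0 := c_disj (by
      rw [or_land_eq_zero, Nat.and_comm j i]; tauto)
    have h3 : c (k ||| i) j = 0 := c_disj (by rw [or_land_eq_zero]; tauto)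
    simp [h1, h2, h3]

end Tw
section TwAlg
open Finsupp

/-- A twisted algebra with basis indexed by `ℕ` (only subsets of a 6-element set matter),
`v_i v_j = c(i,j) v_{i ∪ j}`. -/
def Tw (K : Type*) [CommRing K] := ℕ →₀ K

variable {K : Type*} [CommRing K]
variable {Φ : Type*} [CommRing Φ] [Algebra Φ K]

noncomputable instance : AddCommGroup (Tw K) := inferInstanceAs (AddCommGroup (ℕ →₀ K))
noncomputable instance : Module Φ (Tw K) := inferInstanceAs (Module Φ (ℕ →₀ K))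

instance : IsScalarTower Φ K (Tw K) := inferInstanceAs (IsScalarTower Φ K (ℕ →₀ K))

variable (K) in
noncomputable def mulF : (ℕ →₀ K) →ₗ[K] (ℕ →₀ K) →ₗ[K] (ℕ →₀ K) :=
  Finsupp.lsum K fun i => LinearMap.toSpanSingleton K ((ℕ →₀ K) →ₗ[K] (ℕ →₀ K))
    (Finsupp.lsum K fun j => (c i j : K) • (Finsupp.lsingle (i ||| j) : K →ₗ[K] (ℕ →₀ K)))

theorem mulF_single (i j : ℕ) (a b : K) :
    mulF K (Finsupp.single i a) (Finsupp.single j b) =
      Finsupp.single (i ||| j) (a * b * c i j) := by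
  unfold mulF
  rw [Finsupp.lsum_single, LinearMap.toSpanSingleton_apply, LinearMap.smul_apply,
    Finsupp.lsum_single]
  simp only [LinearMap.smul_apply, Finsupp.lsingle_apply, Finsupp.smul_single, smul_eq_mul]
  congr 1; ring

variable (K) in
noncomputable def mulL : Tw K →ₗ[K] Tw K →ₗ[K] Tw K := mulF K

noncomputable def sg (i : ℕ) (a : K) : Tw K := Finsupp.single i a

theorem sg_add (i : ℕ) (a b : K) : sg i a + sg i b = sg i (a + b) := (Finsupp.single_add i a b).symm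
theorem sg_sub (i : ℕ) (a b : K) : sg i a - sg i b = sg i (a - b) := (Finsupp.single_sub i a b).symm
theorem sg_zero (i : ℕ) : sg i (0 : K) = 0 := Finsupp.single_zero i

theorem tw_induction {p : Tw K → Prop} (f : Tw K) (h0 : p 0) (ha : ∀ f g, p f → p g → p (f + g))
    (hs : ∀ i a, p (sg i a)) : p f := Finsupp.induction_linear f h0 ha hs

theorem mulL_sg (i j : ℕ) (a b : K) :
    mulL K (sg i a) (sg j b) = sg (i ||| j) (a * b * c i j) := mulF_single i j a b

noncomputable instance : NonUnitalNonAssocRing (Tw K) where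
  mul f g := mulL K f g
  left_distrib f g h := map_add (mulL K f) g h
  right_distrib f g h := by
    change mulL K (f + g) h = mulL K f h + mulL K g h
    rw [map_add, LinearMap.add_apply]
  zero_mul f := by
    change mulL K 0 f = 0
    rw [map_zero, LinearMap.zero_apply]
  mul_zero f := by
    change mulL K f 0 = 0
    rw [map_zero]

theorem tw_mul_def (f g : Tw K) : f * g = mulL K f g := rfl

theorem sg_mul (i j : ℕ) (a b : K) : sg i a * sg j b = sg (i ||| j) (a * b * c i j) := mulL_sg i j a b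

theorem tw_mul_comm (f g : Tw K) : f * g = g * f := by
  induction f using tw_induction with
  | h0 => rw [zero_mul, mul_zero]
  | ha f1 f2 h1 h2 => rw [add_mul, mul_add, h1, h2]
  | hs i a =>
    induction g using tw_induction with
    | h0 => rw [zero_mul, mul_zero]
    | ha f1 f2 h1 h2 => rw [add_mul, mul_add, h1, h2]
    | hs j b => rw [sg_mul, sg_mul, Nat.or_comm, c_comm i j, mul_comm a b]

theorem tw_cyc (h3 : (3 : K) = 0) (f g h : Tw K) : (f * g) * h + (g * h) * f + (h * f) * g = 0 := by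
  induction f using tw_induction with
  | h0 => simp
  | ha f1 f2 h1 h2 =>
    simp only [add_mul, mul_add]
    linear_combination (norm := abel1) h1 + h2
  | hs i a =>
    induction g using tw_induction with
    | h0 => simp
    | ha f1 f2 h1 h2 =>
      simp only [add_mul, mul_add]
      linear_combination (norm := abel1) h1 + h2
    | hs j b =>
      induction h using tw_induction with
      | h0 => simp
      | ha f1 f2 h1 h2 =>
        simp only [add_mul, mul_add]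
        linear_combination (norm := abel1) h1 + h2
      | hs k d =>
        simp only [sg_mul]
        have e1 : j ||| k ||| i = i ||| j ||| k := by
          rw [Nat.or_comm (j ||| k) i, Nat.or_assoc]
        have e2 : k ||| i ||| j = i ||| j ||| k := by
          rw [Nat.or_assoc, Nat.or_comm k]
        rw [e1, e2, sg_add, sg_add]
        obtain ⟨m, hm⟩ := Nat.dvd_of_mod_eq_zero (c_cyc i j k)
        have hm' : ((c i j : K) * c (i ||| j) k + c j k * c (j ||| k) i + c k i * c (k ||| i) j) =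
            3 * m := by exact_mod_cast congrArg (Nat.cast : ℕ → K) hm
        have : a * b * (c i j : K) * d * c (i ||| j) k + b * d * c j k * a * c (j ||| k) i +
            d * a * c k i * b * c (k ||| i) j = 0 := by
          linear_combination a * b * d * hm' + a * b * d * m * h3
        rw [this, sg_zero]

theorem tw_isAlt (h3 : (3 : K) = 0) : IsAlt (Tw K) := by
  have key : ∀ f g : Tw K, (f * f) * g = f * (f * g) := by
    intro f g
    have h1 := tw_cyc h3 f f g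
    have h2 : ∀ w : Tw K, (3 : ℤ) • w = 0 := by
      intro w
      have : (3 : K) • w = (3 : ℤ) • w := by
        rw [← Int.cast_smul_eq_zsmul K]; norm_num
      rw [← this, h3, zero_smul]
    have h4 := h2 ((f * g) * f)
    rw [tw_mul_comm g f] at h1
    rw [tw_mul_comm f (f * g)]
    linear_combination (norm := abel1) h1 - h4
  refine ⟨key, fun f g => ?_⟩
  rw [tw_mul_comm g f, tw_mul_comm (f * g) f, ← key, tw_mul_comm]

instance : IsScalarTower Φ (Tw K) (Tw K) where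
  smul_assoc r f g := by
    change (r • f) * g = r • (f * g)
    have h1 : ∀ w : Tw K, r • w = (algebraMap Φ K r) • w := fun w => (algebraMap_smul K r w).symm
    rw [h1, h1, tw_mul_def, tw_mul_def, map_smul, LinearMap.smul_apply]

instance : SMulCommClass Φ (Tw K) (Tw K) where
  smul_comm r f g := by
    change r • (f * g) = f * (r • g)
    have h1 : ∀ w : Tw K, r • w = (algebraMap Φ K r) • w := fun w => (algebraMap_smul K r w).symm
    rw [h1, h1, tw_mul_def, tw_mul_def, map_smul]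

theorem J_sg (i j : ℕ) (a b : K) : J (sg i a) (sg j b) = sg (i ||| j) (2 * a * b * c i j) := by
  rw [J, tw_mul_comm (sg j b), sg_mul, sg_add]; congr 1; ring

theorem associator_sg (i j k : ℕ) (a b d : K) : associator (sg i a) (sg j b) (sg k d) =
    sg (i ||| j ||| k) (a * b * d * (c i j * c (i ||| j) k - c j k * c i (j ||| k))) := by
  simp only [associator, sg_mul]
  rw [← Nat.or_assoc, sg_sub]; congr 1; ring

theorem tau_sg : tau (sg 1 (1 : K)) (sg 2 1) (sg 4 1) (sg 8 1) (sg 16 1) (sg 32 1) = sg 63 64 := by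
  simp only [tau, J_sg, associator_sg]
  have o1 : 32 ||| 2 = 34 := by decide
  have o2 : 4 ||| 1 = 5 := by decide
  have o3 : 8 ||| 16 = 24 := by decide
  have o4 : 34 ||| 5 = 39 := by decide
  have o5 : 39 ||| 24 = 63 := by decide
  have o6 : 5 ||| 24 = 29 := by decide
  have o7 : 32 ||| 4 = 36 := by decide
  have o8 : 8 ||| 2 = 10 := by decide
  have o9 : 16 ||| 1 = 17 := by decide
  have o10 : 36 ||| 10 = 46 := by decide
  have o11 : 46 ||| 17 = 63 := by decide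
  have o12 : 10 ||| 17 = 27 := by decide
  have c1 : c 4 8 = 0 := by decide +kernel
  have c2 : c 32 2 = 2 := by decide +kernel
  have c3 : c 4 1 = 2 := by decide +kernel
  have c4 : c 8 16 = 2 := by decide +kernel
  have c5 : c 34 5 = 2 := by decide +kernel
  have c6 : c 39 24 = 1 := by decide +kernel
  have c7 : c 5 24 = 2 := by decide +kernel
  have c8 : c 34 29 = 0 := by decide +kernel
  have c9 : c 32 4 = 2 := by decide +kernel
  have c10 : c 8 2 = 2 := by decide +kernel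
  have c11 : c 16 1 = 2 := by decide +kernel
  have c12 : c 36 10 = 1 := by decide +kernel
  have c13 : c 46 17 = 0 := by decide +kernel
  have c14 : c 10 17 = 1 := by decide +kernel
  have c15 : c 36 27 = 1 := by decide +kernel
  have c16 : c 1 2 = 0 := by decide +kernel
  have c17 : c 32 16 = 0 := by decide +kernel
  simp only [o1, o2, o3, o4, o5, o6, o7, o8, o9, o10, o11, o12]
  norm_num [c1, c2, c3, c4, c5, c6, c7, c8, c9, c10, c11, c12, c13, c14, c15, c16, c17, sg_add, sg_zero]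

end TwAlg

section Free
variable (Φ : Type*) [CommRing Φ] (X : Type*)

/-- The two-sided ideal of the free nonassociative `Φ`-algebra on `X` generated by all elements
`(f, f, g)` and `(g, f, f)`. -/
noncomputable def altIdeal : Submodule Φ (FreeNonUnitalNonAssocAlgebra Φ X) :=
  sInf {I | (∀ a, ∀ f ∈ I, a * f ∈ I ∧ f * a ∈ I) ∧
    ∀ f g, associator f f g ∈ I ∧ associator g f f ∈ I}

/-- The free alternative `Φ`-algebra on `X`. -/
abbrev Alt := FreeNonUnitalNonAssocAlgebra Φ X ⧸ altIdeal Φ X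

variable {Φ X}

theorem mul_mem_altIdeal (a : FreeNonUnitalNonAssocAlgebra Φ X)
    {f : FreeNonUnitalNonAssocAlgebra Φ X} (hf : f ∈ altIdeal Φ X) :
    a * f ∈ altIdeal Φ X ∧ f * a ∈ altIdeal Φ X := by
  simp only [altIdeal, Submodule.mem_sInf] at hf ⊢
  exact ⟨fun I hI => (hI.1 a f (hf I hI)).1, fun I hI => (hI.1 a f (hf I hI)).2⟩

theorem assoc_mem_altIdeal (f g : FreeNonUnitalNonAssocAlgebra Φ X) :
    associator f f g ∈ altIdeal Φ X ∧ associator g f f ∈ altIdeal Φ X := by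
  simp only [altIdeal, Submodule.mem_sInf]
  exact ⟨fun I hI => (hI.2 f g).1, fun I hI => (hI.2 f g).2⟩

/-- The multiplication of `Alt Φ X`, induced by that of the free nonassociative algebra. -/
noncomputable instance : Mul (Alt Φ X) where
  mul a b := Quotient.liftOn₂' a b (fun x y => (Submodule.Quotient.mk (x * y) : Alt Φ X)) (by
    intro a1 b1 a2 b2 h1 h2
    rw [Submodule.quotientRel_def] at h1 h2
    rw [Submodule.Quotient.eq]
    have e : a1 * b1 - a2 * b2 = a1 * (b1 - b2) + (a1 - a2) * b2 := by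
      rw [mul_sub, sub_mul]; abel
    rw [e]
    exact add_mem (mul_mem_altIdeal _ h2).1 (mul_mem_altIdeal _ h1).2)

theorem mk_mul (x y : FreeNonUnitalNonAssocAlgebra Φ X) :
    (Submodule.Quotient.mk x : Alt Φ X) * Submodule.Quotient.mk y =
      Submodule.Quotient.mk (x * y) := rfl

noncomputable instance : NonUnitalNonAssocRing (Alt Φ X) where
  left_distrib := by
    rintro ⟨a⟩ ⟨b⟩ ⟨c⟩
    exact congrArg (Submodule.Quotient.mk (p := altIdeal Φ X)) (mul_add a b c)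
  right_distrib := by
    rintro ⟨a⟩ ⟨b⟩ ⟨c⟩
    exact congrArg (Submodule.Quotient.mk (p := altIdeal Φ X)) (add_mul a b c)
  zero_mul := by
    rintro ⟨a⟩
    exact congrArg (Submodule.Quotient.mk (p := altIdeal Φ X)) (zero_mul a)
  mul_zero := by
    rintro ⟨a⟩
    exact congrArg (Submodule.Quotient.mk (p := altIdeal Φ X)) (mul_zero a)

theorem alt_isAlt : IsAlt (Alt Φ X) := by
  constructor
  · rintro ⟨a⟩ ⟨b⟩
    exact (Submodule.Quotient.eq (altIdeal Φ X)).mpr (assoc_mem_altIdeal a b).1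
  · rintro ⟨a⟩ ⟨b⟩
    exact (Submodule.Quotient.eq (altIdeal Φ X)).mpr (assoc_mem_altIdeal a b).2

/-- The image in `Alt Φ ℕ` of the generator `x n`. -/
noncomputable def gen (Φ : Type*) [CommRing Φ] (n : ℕ) : Alt Φ ℕ :=
  Submodule.Quotient.mk (FreeNonUnitalNonAssocAlgebra.of Φ n)

/-- The element `∑_{i ∈ ℤ/5} (x₅ ∘ xᵢ, xᵢ₊₁ ∘ xᵢ₋₁, xᵢ₊₂ ∘ xᵢ₋₂)` of `Alt Φ ℕ`. -/
noncomputable def torsionElt (Φ : Type*) [CommRing Φ] : Alt Φ ℕ :=
  tau (gen Φ 0) (gen Φ 1) (gen Φ 2) (gen Φ 3) (gen Φ 4) (gen Φ 5)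

section
variable {K : Type*} [CommRing K] [Algebra Φ K]

/-- evaluation of the free nonassociative algebra in the twisted algebra -/
noncomputable def ev : FreeNonUnitalNonAssocAlgebra Φ ℕ →ₙₐ[Φ] Tw K :=
  FreeNonUnitalNonAssocAlgebra.lift Φ (fun n => sg (2 ^ n) (1 : K))

variable (Φ K) in
noncomputable def evL : FreeNonUnitalNonAssocAlgebra Φ ℕ →ₗ[Φ] Tw K where
  toFun := ev
  map_add' := map_add _
  map_smul' := map_smul _

theorem ev_ideal (h3 : (3 : K) = 0) : altIdeal Φ ℕ ≤ LinearMap.ker (evL Φ K) := by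
  apply sInf_le
  refine ⟨fun a f hf => ?_, fun f g => ?_⟩
  · simp only [LinearMap.mem_ker] at hf ⊢
    have hf' : (ev f : Tw K) = 0 := hf
    constructor
    · change (ev (a * f) : Tw K) = 0
      rw [map_mul, hf', mul_zero]
    · change (ev (f * a) : Tw K) = 0
      rw [map_mul, hf', zero_mul]
  · simp only [LinearMap.mem_ker]
    constructor
    · change (ev (associator f f g) : Tw K) = 0
      simp only [associator, map_sub, map_mul]
      rw [(tw_isAlt h3).left, sub_self]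
    · change (ev (associator g f f) : Tw K) = 0
      simp only [associator, map_sub, map_mul]
      rw [(tw_isAlt h3).right, sub_self]

/-- the induced map on the free alternative algebra -/
noncomputable def evA (h3 : (3 : K) = 0) : Alt Φ ℕ →ₗ[Φ] Tw K :=
  (altIdeal Φ ℕ).liftQ (evL Φ K) (ev_ideal h3)

theorem evA_mul (h3 : (3 : K) = 0) (a b : Alt Φ ℕ) :
    evA (Φ := Φ) h3 (a * b) = evA h3 a * evA h3 b := by
  obtain ⟨a, rfl⟩ := Submodule.Quotient.mk_surjective _ a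
  obtain ⟨b, rfl⟩ := Submodule.Quotient.mk_surjective _ b
  exact map_mul (ev : FreeNonUnitalNonAssocAlgebra Φ ℕ →ₙₐ[Φ] Tw K) a b

theorem evA_gen (h3 : (3 : K) = 0) (n : ℕ) : evA (Φ := Φ) h3 (gen Φ n) = sg (2 ^ n) (1 : K) :=
  FreeNonUnitalNonAssocAlgebra.lift_of_apply Φ _ n

theorem evA_torsion (h3 : (3 : K) = 0) : evA (Φ := Φ) h3 (torsionElt Φ) = sg 63 (1 : K) := by
  have h64 : (64 : K) = 1 := by linear_combination 21 * h3
  rw [← h64, ← tau_sg]
  simp only [torsionElt, tau, J, associator, map_add, map_sub, evA_mul, evA_gen]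
  norm_num

variable (Φ K) in
/-- the coefficient of `v_{63}` -/
noncomputable def coef : Tw K →ₗ[Φ] K := (Finsupp.lapply 63 : (ℕ →₀ K) →ₗ[Φ] K)

theorem coef_sg (a : K) : coef Φ K (sg 63 a) = a := Finsupp.single_eq_same

/-- the coefficient of `v_{63}` of the value in the twisted algebra -/
noncomputable def lam (h3 : (3 : K) = 0) : Alt Φ ℕ →ₗ[Φ] K := coef Φ K ∘ₗ evA (Φ := Φ) h3

theorem lam_torsion (h3 : (3 : K) = 0) : lam (Φ := Φ) h3 (torsionElt Φ) = (1 : K) := by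
  rw [lam, LinearMap.comp_apply, evA_torsion, coef_sg]
end

theorem torsion_three (Φ : Type*) [CommRing Φ] : (3 : ℤ) • torsionElt Φ = 0 :=
  three_tau alt_isAlt _ _ _ _ _ _

theorem torsion_three' (Φ : Type*) [CommRing Φ] : (3 : Φ) • torsionElt Φ = 0 := by
  have := torsion_three Φ
  rw [← Int.cast_smul_eq_zsmul Φ] at this
  exact_mod_cast this

/-- ideal of all `a + 3 b` with `3 a = 0`. -/
def annIdeal (Φ : Type*) [CommRing Φ] : Ideal Φ where
  carrier := {r | ∃ e b : Φ, 3 * e = 0 ∧ e + 3 * b = r}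
  add_mem' := by
    rintro _ _ ⟨e, b, h, rfl⟩ ⟨e', b', h', rfl⟩
    exact ⟨e + e', b + b', by linear_combination h + h', by ring⟩
  zero_mem' := ⟨0, 0, by ring, by ring⟩
  smul_mem' := by
    rintro r _ ⟨e, b, h, rfl⟩
    exact ⟨r * e, r * b, by linear_combination r * h, by rw [smul_eq_mul]; ring⟩

theorem flat_dec (Φ : Type*) [CommRing Φ] [Module.Flat Φ (Alt Φ ℕ)] :
    ∃ e b : Φ, 3 * e = 0 ∧ e + 3 * b = 1 := by
  by_contra hcon
  have h3K : (3 : Φ ⧸ annIdeal Φ) = 0 := by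
    have : (Ideal.Quotient.mk (annIdeal Φ)) 3 = 0 :=
      Ideal.Quotient.eq_zero_iff_mem.mpr ⟨0, 1, by ring, by ring⟩
    rw [← this, map_ofNat]
  have hrel : ∑ i : Fin 1, (fun _ : Fin 1 => (3 : Φ)) i • (fun _ : Fin 1 => torsionElt Φ) i = 0 := by
    simp [torsion_three']
  obtain ⟨k, a, y, hy, ha⟩ := Module.Flat.isTrivialRelation_of_sum_smul_eq_zero hrel
  have h1 := lam_torsion (Φ := Φ) h3K
  have h2 := hy 0
  simp only at h2
  rw [h2, map_sum] at h1
  have h4 : ∀ j, lam (Φ := Φ) h3K (a 0 j • y j) = 0 := by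
    intro j
    rw [map_smul, Algebra.smul_def]
    have h5 := ha j
    simp only [Fin.sum_univ_one] at h5
    have : algebraMap Φ (Φ ⧸ annIdeal Φ) (a 0 j) = 0 :=
      Ideal.Quotient.eq_zero_iff_mem.mpr ⟨a 0 j, 0, h5, by ring⟩
    rw [this, zero_mul]
  simp only [h4, Finset.sum_const_zero] at h1
  have h6 : (Ideal.Quotient.mk (annIdeal Φ)) 1 = 0 := by rw [map_one]; exact h1.symm
  exact hcon (Ideal.Quotient.eq_zero_iff_mem.mp h6)

/-- The full statement. -/
theorem result :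
    (∀ (Φ : Type u) [CommRing Φ],
      (3 : Φ) • torsionElt Φ = 0 ∧ (¬ IsUnit (3 : Φ) → torsionElt Φ ≠ 0)) ∧
    (∀ (Φ : Type u) [CommRing Φ], Module.Flat Φ (Alt Φ ℕ) → ∃ e b : Φ, 3 * e = 0 ∧ e + 3 * b = 1) ∧
    ((3 : ℤ) • torsionElt ℤ = 0 ∧ torsionElt ℤ ≠ 0) ∧
    ¬ Module.Free ℤ (Alt ℤ ℕ) := by
  have key : ∀ (Φ : Type u) [CommRing Φ], ¬ IsUnit (3 : Φ) → torsionElt Φ ≠ 0 := by
    intro Φ _ hu h0
    have h3K : (3 : Φ ⧸ Ideal.span {(3 : Φ)}) = 0 := by
      have : (Ideal.Quotient.mk (Ideal.span {(3 : Φ)})) 3 = 0 :=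
        Ideal.Quotient.eq_zero_iff_mem.mpr (Ideal.mem_span_singleton_self 3)
      rw [← this, map_ofNat]
    have h1 := lam_torsion (Φ := Φ) h3K
    rw [h0, map_zero] at h1
    have h2 : (Ideal.Quotient.mk (Ideal.span {(3 : Φ)})) 1 = 0 := by rw [map_one]; exact h1.symm
    rw [Ideal.Quotient.eq_zero_iff_mem, Ideal.mem_span_singleton] at h2
    exact hu (isUnit_of_dvd_one h2)
  have key0 : torsionElt ℤ ≠ 0 := by
    intro h0
    have h3K : (3 : ZMod 3) = 0 := by decide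
    have h1 := lam_torsion (Φ := ℤ) h3K
    rw [h0, map_zero] at h1
    exact absurd h1 (by decide)
  refine ⟨fun Φ _ => ⟨torsion_three' Φ, key Φ⟩, fun Φ _ _ => flat_dec Φ,
    ⟨torsion_three ℤ, key0⟩, fun hfree => ?_⟩
  obtain ⟨e, b, h1, h2⟩ := flat_dec ℤ
  omega

end Free

end Pool.Agent.Results.MP_2692c1_al.Torsion
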